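import Pool.Agent.H13.EV.Defs

/-!
# Module MUL: multiplicativity of `(u, y - w)` in `u`
-/

open Polynomial

namespace Pool.Agent.H2.EV

open Pool.Agent.H62.HE
open Pool.Agent.H13.EV

universe u

/-- `U, V, W` generate the unit ideal -/
theorem MUL_unit {k : Type u} [Field k] {f U V W : k[X]} (hf : Squarefree f)
    (h : U * V ∣ W ^ 2 - f) : ∃ p q r : k[X], p * U + q * V + r * W = 1 := by
  obtain ⟨t, ht⟩ := h
  obtain ⟨d, hd⟩ := IsPrincipalIdealRing.principal (Ideal.span {U, V, W})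
  rw [← Ideal.span] at hd
  have hU : d ∣ U := Ideal.mem_span_singleton.1 (by rw [← hd]; exact Ideal.subset_span (by simp))
  have hV : d ∣ V := Ideal.mem_span_singleton.1 (by rw [← hd]; exact Ideal.subset_span (by simp))
  have hW : d ∣ W := Ideal.mem_span_singleton.1 (by rw [← hd]; exact Ideal.subset_span (by simp))
  have hdd : d * d ∣ f := by
    have e : f = W * W - U * V * t := by linear_combination -ht
    rw [e]
    exact dvd_sub (mul_dvd_mul hW hW) ((mul_dvd_mul hU hV).mul_right t)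
  have hu : IsUnit d := hf d hdd
  have h1 : (1 : k[X]) ∈ Ideal.span {U, V, W} := by
    rw [hd, Ideal.span_singleton_eq_top.2 hu]
    trivial
  rw [Ideal.mem_span_insert] at h1
  obtain ⟨p, z, hz, hp⟩ := h1
  obtain ⟨q, r, hqr⟩ := Ideal.mem_span_pair.1 hz
  exact ⟨p, q, r, by rw [hp, ← hqr]; ring⟩

theorem mul : T_MUL.{u} := by
  intro k _ f U V W h2 hf h
  obtain ⟨p, q, r, hpqr⟩ := MUL_unit hf h
  obtain ⟨t, ht⟩ := h
  unfold II
  rw [Ideal.span_pair_mul_span_pair]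
  apply le_antisymm
  · rw [Ideal.span_le]
    rintro z (rfl | rfl)
    · have e : (⟨U * V, 0⟩ : HR k f) = ⟨U, 0⟩ * ⟨V, 0⟩ := by
        ext1
        · simp
        · simp
      rw [SetLike.mem_coe, e]
      exact Ideal.subset_span (Or.inl rfl)
    · have h2' : (C 2⁻¹ : k[X]) * 2 = 1 := by
        rw [show (2 : k[X]) = C 2 by rfl, ← C_mul, inv_mul_cancel₀ h2, C_1]
      have e : (⟨-W, 1⟩ : HR k f) = ⟨p, 0⟩ * (⟨U, 0⟩ * ⟨-W, 1⟩) + ⟨q, 0⟩ * (⟨-W, 1⟩ * ⟨V, 0⟩) -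
          ⟨C 2⁻¹ * r, 0⟩ * (⟨-W, 1⟩ * ⟨-W, 1⟩) - ⟨C 2⁻¹ * r * t, 0⟩ * (⟨U, 0⟩ * ⟨V, 0⟩) := by
        ext1
        · simp
          linear_combination W * hpqr - C 2⁻¹ * r * ht + r * W ^ 2 * h2'
        · simp
          linear_combination -hpqr - r * W * h2'
      rw [SetLike.mem_coe]
      suffices H : ∀ z : HR k f, z = ⟨-W, 1⟩ → z ∈ Ideal.span {(⟨U, 0⟩ : HR k f) * ⟨V, 0⟩,
          ⟨U, 0⟩ * ⟨-W, 1⟩, ⟨-W, 1⟩ * ⟨V, 0⟩, ⟨-W, 1⟩ * ⟨-W, 1⟩} from H _ rfl
      intro z hz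
      rw [show z = _ from hz.trans e]
      refine sub_mem (sub_mem (add_mem ?_ ?_) ?_) ?_
      · exact Ideal.mul_mem_left _ _ (Ideal.subset_span (Or.inr (Or.inl rfl)))
      · exact Ideal.mul_mem_left _ _ (Ideal.subset_span (Or.inr (Or.inr (Or.inl rfl))))
      · exact Ideal.mul_mem_left _ _ (Ideal.subset_span (Or.inr (Or.inr (Or.inr rfl))))
      · exact Ideal.mul_mem_left _ _ (Ideal.subset_span (Or.inl rfl))
  · rw [Ideal.span_le]
    rintro z (rfl | rfl | rfl | rfl)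
    · have e : (⟨U, 0⟩ : HR k f) * ⟨V, 0⟩ = ⟨U * V, 0⟩ := by
        ext1
        · simp
        · simp
      rw [SetLike.mem_coe, e]
      exact Ideal.subset_span (Or.inl rfl)
    · exact Ideal.mul_mem_left _ _ (Ideal.subset_span (Or.inr rfl))
    · exact Ideal.mul_mem_right _ _ (Ideal.subset_span (Or.inr rfl))
    · exact Ideal.mul_mem_left _ _ (Ideal.subset_span (Or.inr rfl))

end Pool.Agent.H2.EV
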