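import Pool.Agent.H13.EV.Defs

/-!
# Module RED: a product of points is equivalent to a reduced ideal
-/

open Polynomial

namespace Pool.Agent.H2.EV

open Pool.Agent.H62.HE
open Pool.Agent.H13.EV

universe u

/-- the ideal `(u, y - w)` depends only on `w` modulo `u` -/
theorem II_congr {k : Type u} [Field k] {f U W W' : k[X]} (h : U ∣ W' - W) :
    II f U W' = II f U W := by
  have key : ∀ W W' : k[X], U ∣ W' - W → II f U W' ≤ II f U W := by
    intro W W' h
    obtain ⟨q, hq⟩ := h
    unfold II
    rw [Ideal.span_le]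
    rintro z (rfl | rfl)
    · exact Ideal.subset_span (Or.inl rfl)
    · have e : (⟨-W', 1⟩ : HR k f) = ⟨-W, 1⟩ - ⟨q, 0⟩ * ⟨U, 0⟩ := by
        ext1
        · simp
          linear_combination -hq
        · simp
      rw [SetLike.mem_coe, e]
      exact sub_mem (Ideal.subset_span (Or.inr rfl))
        (Ideal.mul_mem_left _ _ (Ideal.subset_span (Or.inl rfl)))
  refine le_antisymm (key W W' h) (key W' W ?_)
  rw [← neg_sub]
  exact (dvd_neg).2 h

/-- the ideal of a point -/
theorem II_eq_pt {k : Type u} [Field k] {f W : k[X]} {x y : k} (h : W.eval x = y) :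
    II f (X - C x) W = pt f x y := by
  unfold pt
  apply II_congr
  rw [dvd_iff_isRoot, IsRoot.def, eval_sub, eval_C, h, sub_self]

/-- the polynomial with the given roots -/
noncomputable def rts {k : Type u} [Field k] (S : Multiset k) : k[X] :=
  (S.map fun c => X - C c).prod

theorem rts_cons {k : Type u} [Field k] (c : k) (S : Multiset k) :
    rts (c ::ₘ S) = (X - C c) * rts S := by
  unfold rts
  rw [Multiset.map_cons, Multiset.prod_cons]

theorem RED_step (hM : T_MUL.{u}) (hP : T_PT.{u}) {k : Type u} [Field k] {f : k[X]}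
    [IsDomain (HR k f)] (h2 : (2 : k) ≠ 0) (hf : Squarefree f) {x y : k} (hy : y ≠ 0)
    (hxy : y ^ 2 = f.eval x) (S : Multiset k) (W : k[X]) (h : rts S ∣ W ^ 2 - f) :
    ∃ (S' : Multiset k) (W' : k[X]), (∀ c ∈ S', c = x ∨ c ∈ S) ∧ rts S' ∣ W' ^ 2 - f ∧
      Eqv (pt f x y * II f (rts S) W) (II f (rts S') W') := by
  classical
  by_cases h0 : (rts S).eval x = 0
  · have hW : (W.eval x - y) * (W.eval x + y) = 0 := by
      have h1 : (X - C x : k[X]) ∣ W ^ 2 - f := (dvd_iff_isRoot.2 h0).trans h
      rw [dvd_iff_isRoot, IsRoot.def, eval_sub, eval_pow, ← hxy] at h1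
      linear_combination h1
    rcases mul_eq_zero.1 hW with h1 | h1
    · -- tangent case
      have hWx : W.eval x = y := sub_eq_zero.1 h1
      obtain ⟨r, hr⟩ := h
      have h3 : rts S ∣ W + C (-(r.eval x) / (2 * y)) * rts S - W := by
        rw [add_sub_cancel_left]
        exact dvd_mul_left _ _
      have h4 : (W + C (-(r.eval x) / (2 * y)) * rts S).eval x = y := by
        rw [eval_add, eval_mul, h0, mul_zero, add_zero, hWx]
      have h5 : rts (x ::ₘ S) ∣ (W + C (-(r.eval x) / (2 * y)) * rts S) ^ 2 - f := by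
        have h6 : (X - C x : k[X]) ∣ r + 2 * C (-(r.eval x) / (2 * y)) * W +
            C (-(r.eval x) / (2 * y)) ^ 2 * rts S := by
          rw [dvd_iff_isRoot, IsRoot.def]
          simp only [eval_add, eval_mul, eval_pow, eval_C, eval_ofNat, h0, hWx]
          field_simp
          ring
        obtain ⟨m, hm⟩ := h6
        refine ⟨m, ?_⟩
        rw [rts_cons]
        linear_combination hr + rts S * hm
      refine ⟨x ::ₘ S, _, fun c hc => Multiset.mem_cons.1 hc, h5, ?_⟩
      rw [rts_cons] at h5 ⊢
      rw [hM k f _ _ _ h2 hf h5, II_eq_pt h4, II_congr h3]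
      exact Eqv.refl _
    · -- opposite points
      have hWx : W.eval x = -y := by linear_combination h1
      have hxS : x ∈ S := by
        unfold rts at h0
        rw [eval_multiset_prod, Multiset.map_map, Multiset.prod_eq_zero_iff, Multiset.mem_map] at h0
        obtain ⟨c, hc, hc0⟩ := h0
        have : x = c := by
          simpa [sub_eq_zero] using hc0
        rwa [this]
      obtain ⟨S0, rfl⟩ := Multiset.exists_cons_of_mem hxS
      rw [rts_cons] at h
      refine ⟨S0, W, fun c hc => Or.inr (Multiset.mem_cons_of_mem hc),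
        (dvd_mul_left _ _).trans h, ?_⟩
      rw [rts_cons, hM k f _ _ _ h2 hf h, II_eq_pt hWx, ← mul_assoc, hP k f x y h2 hf hxy]
      have hne : (⟨X - C x, 0⟩ : HR k f) ≠ 0 := by
        intro h0
        exact X_sub_C_ne_zero x (congrArg QuadraticAlgebra.re h0)
      have := (Eqv.of_span hne).mul (Eqv.refl (II f (rts S0) W))
      rwa [one_mul] at this
  · -- a new point
    have h3 : rts S ∣ W + C ((y - W.eval x) / (rts S).eval x) * rts S - W := by
      rw [add_sub_cancel_left]
      exact dvd_mul_left _ _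
    have h4 : (W + C ((y - W.eval x) / (rts S).eval x) * rts S).eval x = y := by
      rw [eval_add, eval_mul, eval_C, div_mul_cancel₀ _ h0]
      ring
    have h5 : rts (x ::ₘ S) ∣ (W + C ((y - W.eval x) / (rts S).eval x) * rts S) ^ 2 - f := by
      rw [rts_cons]
      refine IsCoprime.mul_dvd ?_ ?_ ?_
      · rw [(irreducible_X_sub_C x).coprime_iff_not_dvd]
        intro hd
        exact h0 (dvd_iff_isRoot.1 hd)
      · rw [dvd_iff_isRoot, IsRoot.def, eval_sub, eval_pow, h4, hxy, sub_self]
      · obtain ⟨r, hr⟩ := h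
        refine ⟨r + 2 * C ((y - W.eval x) / (rts S).eval x) * W +
            C ((y - W.eval x) / (rts S).eval x) ^ 2 * rts S, ?_⟩
        linear_combination hr
    refine ⟨x ::ₘ S, _, fun c hc => Multiset.mem_cons.1 hc, h5, ?_⟩
    rw [rts_cons] at h5 ⊢
    rw [hM k f _ _ _ h2 hf h5, II_eq_pt h4, II_congr h3]
    exact Eqv.refl _

theorem red (hM : T_MUL.{u}) (hP : T_PT.{u}) : T_RED.{u} := by
  classical
  intro k _ f _ ι _ x y h2 hf hy hxy
  have key : ∀ s : Finset ι, ∃ (S : Multiset k) (W : k[X]), (∀ c ∈ S, ∃ i, c = x i) ∧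
      rts S ∣ W ^ 2 - f ∧ Eqv (∏ i ∈ s, pt f (x i) (y i)) (II f (rts S) W) := by
    intro s
    induction s using Finset.induction_on with
    | empty =>
      refine ⟨0, 0, fun c hc => absurd hc (Multiset.notMem_zero c), ?_, ?_⟩
      · unfold rts
        rw [Multiset.map_zero, Multiset.prod_zero]
        exact one_dvd _
      · rw [Finset.prod_empty]
        have : II f (rts (0 : Multiset k)) 0 = 1 := by
          rw [Ideal.one_eq_top, Ideal.eq_top_iff_one]
          unfold II rts
          rw [Multiset.map_zero, Multiset.prod_zero]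
          exact Ideal.subset_span (Or.inl rfl)
        rw [this]
        exact Eqv.refl _
    | insert a s ha ih =>
      obtain ⟨S, W, h1, h3, h4⟩ := ih
      obtain ⟨S', W', h5, h6, h7⟩ := RED_step hM hP h2 hf (hy a) (hxy a) S W h3
      refine ⟨S', W', fun c hc => ?_, h6, ?_⟩
      · rcases h5 c hc with h | h
        · exact ⟨a, h⟩
        · exact h1 c h
      · rw [Finset.prod_insert ha]
        exact ((Eqv.refl _).mul h4).trans h7
  obtain ⟨S, W, h1, h3, h4⟩ := key Finset.univ
  obtain ⟨L, rfl⟩ : ∃ L : List k, S = L := ⟨S.toList, (Multiset.coe_toList S).symm⟩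
  have e : rts (L : Multiset k) = ∏ j : Fin L.length, (X - C (L.get j)) := by
    unfold rts
    rw [Multiset.map_coe, Multiset.prod_coe, ← List.prod_ofFn]
    congr 1
    apply List.ext_get
    · simp
    · intro n h1 h2
      simp
  refine ⟨L.length, fun j => L.get j, W, fun j => h1 _ (List.get_mem L j), ?_, ?_, ?_⟩
  · rw [← e]
    exact h3
  · refine IsCoprime.prod_left fun j _ => ?_
    rw [(irreducible_X_sub_C _).coprime_iff_not_dvd]
    intro hd
    obtain ⟨i, hi⟩ := h1 _ (List.get_mem L j)
    have h5 : (X - C (L.get j) : k[X]) ∣ W ^ 2 - f := by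
      refine dvd_trans ?_ h3
      rw [e]
      exact Finset.dvd_prod_of_mem _ (Finset.mem_univ j)
    have h6 : (X - C (L.get j) : k[X]) ∣ f := by
      have := dvd_sub (hd.trans (dvd_pow_self W two_ne_zero)) h5
      rwa [sub_sub_cancel] at this
    rw [dvd_iff_isRoot, IsRoot.def, hi, ← hxy i] at h6
    exact hy i (pow_eq_zero_iff two_ne_zero |>.1 h6)
  · rw [← e]
    exact h4

end Pool.Agent.H2.EV
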